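import Mathlib
import Pool.Agent.Run7.h185.LPM.Defs
import Pool.Agent.Run7.h185.LPM.Form

/-!
The class of lattice path matroids is characterised by a sentence of `MS₀`.
-/

universe u

namespace Pool.Agent.Results.MP_b5ca43_co.Definable

open Run7.h185.LPM

/-- **There is a sentence of the monadic second-order logic `MS₀` of matroids which holds in a
finite matroid `M` exactly when `M` is a lattice path matroid.** (The assignment `v` is immaterial
since `φ` has no free variables.) -/
theorem result : ∃ φ : Formula, φ.IsSentence ∧
    ∀ (α : Type u) (M : Matroid α), M.Finite → ∀ v : ℕ → Set α,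
      (φ.Sat M v ↔ IsLatticePathMatroid M) := by
  refine ⟨Formula.fGood, fGood_isSentence, ?_⟩
  intro α M hM v
  rw [isLPM_iff_good]
  exact sat_fGood

end Pool.Agent.Results.MP_b5ca43_co.Definable
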